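import Pool.Agent.H351.Step

/-!
Fixed points of finite 2-groups acting on metrically systolic complexes.

Let `X` be metrically systolic and let a group `Γ` of order `2 ^ n` act on `X` by simplicial
automorphisms preserving the metric.  If some subgroup `H` of index at most two moves no vertex to
an adjacent one, then `Γ` fixes a point of the geometric realization.  For `H = ⊥` this covers every
group of order two, for `H = ⊤` every 2-group acting without inversions.
-/

namespace Pool.Agent.Results.MP_d6353f_al.TwoGroups

open Pool.Agent.H351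

end Pool.Agent.Results.MP_d6353f_al.TwoGroups

theorem Pool.Agent.Results.MP_d6353f_al.TwoGroups.result {V : Type*}
    (X : Pool.Agent.H351.MFlag V) (hX : X.MetricallySystolic)
    {Γ : Type*} [Group Γ] [MulAction Γ V] (hact : Pool.Agent.H351.IsAct X Γ)
    (n : ℕ) (hcard : Nat.card Γ = 2 ^ n)
    (H : Subgroup Γ) (hidx : H.index ≤ 2) (hni : ∀ g ∈ H, ∀ v : V, ¬ X.G.Adj v (g • v)) :
    ∃ f : V →₀ ℝ, Pool.Agent.H351.IsPoint X.G f ∧ ∀ (g : Γ) (v : V), f (g • v) = f v :=
  Pool.Agent.H351.main hX hact hcard H hidx hni
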